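import Pool.Agent.Lib.MP_c7af3c_ag.GEN.Interfaces

/-!
# MP_c7af3c_ag, project GEN: module NORMID
-/

set_option autoImplicit false

namespace Pool.Agent.Gen.H97

open WithZero IsDedekindDomain Pool.Agent.Gen

section Lam

variable {A : Type} [CommRing A] [IsDomain A] {lam : A → ℕ}
  (hlam : ∀ a b, a ≠ 0 → b ≠ 0 → lam (a * b) = lam a + lam b)

include hlam

theorem lam_one : lam 1 = 0 := by
  have h := hlam 1 1 one_ne_zero one_ne_zero
  rw [mul_one] at h
  omega

theorem lam_unit (u : Aˣ) : lam (u : A) = 0 := by
  have h := hlam (u : A) ((u⁻¹ : Aˣ) : A) u.ne_zero u⁻¹.ne_zero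
  rw [Units.mul_inv, lam_one hlam] at h
  omega

theorem lam_assoc {a b : A} (ha : a ≠ 0) (h : Associated a b) : lam a = lam b := by
  obtain ⟨u, rfl⟩ := h
  rw [hlam a u ha u.ne_zero, lam_unit hlam, add_zero]

end Lam

section Ell

variable {A B : Type} [CommRing A] [IsDomain A] [IsPrincipalIdealRing A]
  [CommRing B] [IsDedekindDomain B] [Algebra A B] [Module.Finite A B] [Module.IsTorsionFree A B]

theorem span_nrm (I : Ideal B) : Ideal.span {nrm A I} = Ideal.relNorm A I :=
  Ideal.span_singleton_generator (Ideal.relNorm A I)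

theorem nrm_mem (I : Ideal B) : algebraMap A B (nrm A I) ∈ I := by
  have h : nrm A I ∈ Ideal.relNorm A I := by
    rw [← span_nrm I]
    exact Ideal.mem_span_singleton_self _
  exact Ideal.relNorm_le_comap A I h

theorem nrm_ne_zero {I : Ideal B} (hI : I ≠ 0) : nrm A I ≠ 0 := by
  intro h
  have h1 := span_nrm (A := A) I
  rw [h, Ideal.span_singleton_eq_bot.2 rfl] at h1
  exact hI (Ideal.relNorm_eq_bot_iff.1 h1.symm)

variable {lam : A → ℕ} (hlam : ∀ a b, a ≠ 0 → b ≠ 0 → lam (a * b) = lam a + lam b)

include hlam

theorem ell_mul {I J : Ideal B} (hI : I ≠ 0) (hJ : J ≠ 0) :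
    lam (nrm A (I * J)) = lam (nrm A I) + lam (nrm A J) := by
  rw [← hlam _ _ (nrm_ne_zero hI) (nrm_ne_zero hJ)]
  refine lam_assoc hlam (nrm_ne_zero (mul_ne_zero hI hJ)) ?_
  rw [← Ideal.span_singleton_eq_span_singleton, span_nrm, map_mul,
    ← Ideal.span_singleton_mul_span_singleton, span_nrm, span_nrm]

theorem ell_one : lam (nrm A (1 : Ideal B)) = 0 := by
  have h := ell_mul hlam (I := (1 : Ideal B)) (J := 1) one_ne_zero one_ne_zero
  rw [mul_one] at h
  omega

theorem ell_span {b : B} (hb : b ≠ 0) :
    lam (nrm A (Ideal.span {b})) = lam (Algebra.intNorm A B b) := by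
  refine lam_assoc hlam (nrm_ne_zero ?_) ?_
  · intro h
    exact hb (Ideal.span_singleton_eq_bot.1 h)
  · rw [← Ideal.span_singleton_eq_span_singleton, span_nrm, Ideal.relNorm_singleton]

theorem ell_pow {I : Ideal B} (hI : I ≠ 0) (k : ℕ) :
    lam (nrm A (I ^ k)) = k * lam (nrm A I) := by
  induction k with
  | zero => rw [pow_zero, ell_one hlam, Nat.zero_mul]
  | succ k ih =>
    rw [pow_succ, ell_mul hlam (pow_ne_zero k hI) hI, ih]
    ring

theorem ell_prod (s : Finset (HeightOneSpectrum B)) (k : HeightOneSpectrum B → ℕ) :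
    lam (nrm A (∏ P ∈ s, P.asIdeal ^ k P)) = ∑ P ∈ s, k P * lam (nrm A P.asIdeal) := by
  classical
  induction s using Finset.induction_on with
  | empty => rw [Finset.prod_empty, ell_one hlam, Finset.sum_empty]
  | insert P s hP ih =>
    rw [Finset.prod_insert hP, Finset.sum_insert hP, ell_mul hlam (pow_ne_zero _ P.ne_bot)
      (Finset.prod_ne_zero_iff.2 fun Q _ => pow_ne_zero _ Q.ne_bot), ell_pow hlam P.ne_bot, ih]

end Ell

theorem log_val {B L : Type} [CommRing B] [IsDedekindDomain B] [Field L] [Algebra B L]
    [IsFractionRing B L] (P : HeightOneSpectrum B) {b : B} (hb : b ≠ 0) :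
    log (P.valuation L (algebraMap B L b)) =
      -((Associates.mk P.asIdeal).count (Associates.mk (Ideal.span {b} : Ideal B)).factors : ℤ) := by
  classical
  rw [P.valuation_of_algebraMap, P.intValuation_if_neg hb, log_exp]

/-- Module NORMID. -/
theorem normid : NormidStatement := by
  intro A B L _ _ _ _ _ _ _ _ _ _ _ lam hlam
  classical
  constructor
  · intro b hb
    have hI : (Ideal.span {b} : Ideal B) ≠ 0 := fun h => hb (Ideal.span_singleton_eq_bot.1 h)
    have hfin : {P : HeightOneSpectrum B |
        ((Associates.mk P.asIdeal).count (Associates.mk (Ideal.span {b} : Ideal B)).factors : ℤ)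
          ≠ 0}.Finite := Filter.eventually_cofinite.mp (Associates.finite_factors hI)
    have h1 : ∏ᶠ P : HeightOneSpectrum B, P.maxPowDividing (Ideal.span {b}) =
        ∏ P ∈ hfin.toFinset, P.maxPowDividing (Ideal.span {b}) := by
      refine finprod_eq_finsetProd_of_mulSupport_subset _ fun P hP => ?_
      rw [Set.Finite.coe_toFinset]
      intro h0
      apply hP
      change P.asIdeal ^ ((Associates.mk P.asIdeal).count
        (Associates.mk (Ideal.span {b} : Ideal B)).factors) = 1
      rw [Int.natCast_eq_zero.mp h0, pow_zero]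
    have h2 := Ideal.finprod_heightOneSpectrum_factorization hI
    rw [h1] at h2
    have h3 : lam (nrm A (∏ P ∈ hfin.toFinset, P.maxPowDividing (Ideal.span {b}))) =
        lam (Algebra.intNorm A B b) := by rw [h2, ell_span hlam hb]
    have h4 := ell_prod hlam hfin.toFinset
      (fun P => (Associates.mk P.asIdeal).count (Associates.mk (Ideal.span {b} : Ideal B)).factors)
    have h5 : ∑ᶠ P : HeightOneSpectrum B,
        (lam (nrm A P.asIdeal) : ℤ) * log (P.valuation L (algebraMap B L b)) =
        ∑ P ∈ hfin.toFinset,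
          (lam (nrm A P.asIdeal) : ℤ) * log (P.valuation L (algebraMap B L b)) := by
      refine finsum_eq_finsetSum_of_support_subset _ fun P hP => ?_
      rw [Set.Finite.coe_toFinset]
      intro h0
      apply hP
      simp only
      rw [log_val P hb, h0, neg_zero, mul_zero]
    rw [h5]
    have h6 : (lam (Algebra.intNorm A B b) : ℤ) = ∑ P ∈ hfin.toFinset,
        ((Associates.mk P.asIdeal).count (Associates.mk (Ideal.span {b} : Ideal B)).factors : ℤ) *
          (lam (nrm A P.asIdeal) : ℤ) := by
      rw [← h3]
      simp only [HeightOneSpectrum.maxPowDividing]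
      rw [h4]
      push_cast
      rfl
    rw [h6, ← Finset.sum_neg_distrib]
    refine Finset.sum_congr rfl fun P _ => ?_
    rw [log_val P hb]
    ring
  · intro z
    have hfin : {P : HeightOneSpectrum B | 1 < P.valuation L z}.Finite :=
      HeightOneSpectrum.Support.finite B z
    set k : HeightOneSpectrum B → ℕ := fun P => (log (P.valuation L z)).toNat with hk
    have hkz : ∀ P : HeightOneSpectrum B, (k P : ℤ) = max 0 (log (P.valuation L z)) := by
      intro P
      rw [hk]
      simp only
      rw [Int.ofNat_toNat, max_comm]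
    have hk0 : ∀ P ∉ hfin.toFinset, k P = 0 := by
      intro P hP
      rw [Set.Finite.mem_toFinset, Set.mem_ofPred_eq, not_lt] at hP
      by_cases h0 : P.valuation L z = 0
      · simp only [hk]
        rw [h0, log_zero]
        rfl
      · have h1 : log (P.valuation L z) ≤ 0 := by
          rw [← exp_le_exp, exp_log h0, exp_zero]
          exact hP
        simp only [hk]
        exact Int.toNat_of_nonpos h1
    set I : Ideal B := ∏ P ∈ hfin.toFinset, P.asIdeal ^ k P with hI
    have hI0 : I ≠ 0 := Finset.prod_ne_zero_iff.2 fun Q _ => pow_ne_zero _ Q.ne_bot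
    refine ⟨nrm A I, nrm_ne_zero hI0, ?_, ?_⟩
    · have hmem : algebraMap A B (nrm A I) ∈ I := nrm_mem I
      have hP : ∀ P : HeightOneSpectrum B,
          P.valuation L (algebraMap B L (algebraMap A B (nrm A I)) * z) ≤ 1 := by
        intro P
        rw [map_mul, P.valuation_of_algebraMap]
        have h1 : algebraMap A B (nrm A I) ∈ P.asIdeal ^ k P := by
          by_cases hPs : P ∈ hfin.toFinset
          · exact Ideal.le_of_dvd (Finset.dvd_prod_of_mem _ hPs) hmem
          · rw [hk0 P hPs, pow_zero, Ideal.one_eq_top]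
            exact Submodule.mem_top
        rw [← P.intValuation_le_pow_iff_mem] at h1
        have h2 : P.valuation L z ≤ exp (k P : ℤ) := by
          by_cases h0 : P.valuation L z = 0
          · rw [h0]
            exact zero_le
          · rw [hkz P, ← log_le_iff_le_exp h0]
            exact le_max_right _ _
        calc P.intValuation (algebraMap A B (nrm A I)) * P.valuation L z
            ≤ exp (-(k P : ℤ)) * exp (k P : ℤ) := mul_le_mul' h1 h2
          _ = 1 := by rw [← exp_add, neg_add_cancel, exp_zero]
      obtain ⟨b, hb⟩ := HeightOneSpectrum.mem_integers_of_valuation_le_one L _ hP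
      exact ⟨b, hb⟩
    · have h4 := ell_prod hlam hfin.toFinset k
      have h5 : ∑ᶠ P : HeightOneSpectrum B,
          (lam (nrm A P.asIdeal) : ℤ) * max 0 (log (P.valuation L z)) =
          ∑ P ∈ hfin.toFinset, (lam (nrm A P.asIdeal) : ℤ) * max 0 (log (P.valuation L z)) := by
        refine finsum_eq_finsetSum_of_support_subset _ fun P hP => ?_
        by_contra hc
        apply hP
        simp only
        rw [← hkz P, hk0 P (by simpa using hc)]
        simp
      rw [h5, hI, h4]
      push_cast
      refine Finset.sum_congr rfl fun P _ => ?_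
      rw [hkz P]
      ring

end Pool.Agent.Gen.H97
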